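import Mathlib
import Pool.Agent.H32.PM14

namespace Pool.Agent.Results.MP_5a4a69_co.Exists
open Finset

/-- A perfect matching of `K_{2n}`: a set partition of the vertex set into blocks of size two. -/
def IsPerfectMatching {n : ℕ} (m : Finset (Finset (Fin (2 * n)))) : Prop :=
  (∀ e ∈ m, e.card = 2) ∧ ∀ v, ∃! e, e ∈ m ∧ v ∈ e

/-- `D` is an `(n-3,1,1,1)`-factorisation of `K_{2n}`: a non-empty set of perfect matchings such
that any three pairwise disjoint edges lie together in exactly `c > 0` members. -/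
def IsFactorisation {n : ℕ} (D : Finset (Finset (Finset (Fin (2 * n))))) : Prop :=
  D.Nonempty ∧ (∀ m ∈ D, IsPerfectMatching m) ∧
    ∃ c : ℕ, 0 < c ∧ ∀ e₁ e₂ e₃ : Finset (Fin (2 * n)), e₁.card = 2 → e₂.card = 2 → e₃.card = 2 →
      Disjoint e₁ e₂ → Disjoint e₁ e₃ → Disjoint e₂ e₃ →
      (D.filter fun m => e₁ ∈ m ∧ e₂ ∈ m ∧ e₃ ∈ m).card = c

open Pool.Agent.H32.PM14 in
theorem result : ∃ n : ℕ, 4 ≤ n ∧ ∃ D : Finset (Finset (Finset (Fin (2 * n)))),
    IsFactorisation D ∧ ∃ m, IsPerfectMatching m ∧ m ∉ D := by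
  refine ⟨7, by norm_num, (range 15444).image mt, ⟨?_, ?_, 12, by norm_num, ?_⟩, m0, ?_, ?_⟩
  · exact ⟨mt 0, mem_image_of_mem _ (by simp)⟩
  · intro m hm
    obtain ⟨j, hj, rfl⟩ := mem_image.1 hm
    exact ⟨mt_card, mt_uniq (mem_range.1 hj)⟩
  · intro e₁ e₂ e₃ h1 h2 h3 d12 d13 d23
    rw [filter_image, card_image_of_injOn (mt_inj.mono (coe_subset.2 (filter_subset _ _)))]
    exact cnt e₁ e₂ e₃ h1 h2 h3 d12 d13 d23
  · exact ⟨m0_card, m0_uniq⟩
  · intro h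
    obtain ⟨j, _, hj⟩ := mem_image.1 h
    exact m0_ne j hj

end Pool.Agent.Results.MP_5a4a69_co.Exists
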